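import Mathlib
import Pool.Agent.H22.OmegaDefs

set_option autoImplicit false

namespace Pool.Agent.Results.MP_2fa119_al.Counterexample

open Pool.Agent.H22.Omega Polynomial

inductive Sg : ℕ → Type
  | mul : Sg 2
  | cst : Sg 0

abbrev W := Matrix (Fin 2) (Fin 2) ℂ

noncomputable def E : W := Matrix.single 0 1 1

noncomputable def alg (t : ℂ) : OAlg ℂ Sg W :=
  ⟨fun _ ω => match ω with
    | .mul => bil (LinearMap.mul ℂ W)
    | .cst => MultilinearMap.constOfIsEmpty ℂ _ (t • E)⟩

theorem eval_mul (c : ℂ) (x : ℕ → W) (s : Fin 2 → Term Sg) :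
    (Term.app 2 Sg.mul s).eval (alg c) x = (s 0).eval (alg c) x * (s 1).eval (alg c) x := rfl
theorem eval_cst (c : ℂ) (x : ℕ → W) (s : Fin 0 → Term Sg) :
    (Term.app 0 Sg.cst s).eval (alg c) x = c • E := rfl

def deg : Term Sg → ℕ
  | .var _ => 0
  | .app _ .mul s => deg (s 0) + deg (s 1)
  | .app _ .cst _ => 1

theorem scale (c : ℂ) (x : ℕ → W) (t : Term Sg) :
    t.eval (alg c) x = c ^ deg t • t.eval (alg 1) x := by
  induction t with
  | var i => simp [Term.eval, deg]
  | app n ω s ih =>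
    cases ω
    · rw [eval_mul, eval_mul, ih 0, ih 1, deg, pow_add, smul_mul_smul_comm]
    · rw [eval_cst, eval_cst, deg, pow_one, one_smul]

theorem ids_ne (c : ℂ) (hc : c ≠ 0) (f : Term Sg →₀ ℂ) (hf : f ∈ Ids (alg 1)) :
    f ∈ Ids (alg c) := by
  intro y
  obtain ⟨D, D', h1, h2, h3⟩ : ∃ D D' : W, D * D' = 1 ∧ D' * D = 1 ∧ D * E * D' = c • E := by
    refine ⟨Matrix.diagonal ![c, 1], Matrix.diagonal ![c⁻¹, 1], ?_, ?_, ?_⟩ <;>
      ext i j <;> fin_cases i <;> fin_cases j <;> simp [E, hc]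
  have key : ∀ t : Term Sg, t.eval (alg c) y =
      D * t.eval (alg 1) (fun i => D' * y i * D) * D' := by
    intro t
    induction t with
    | var i =>
      simp only [Term.eval]
      rw [← mul_assoc, ← mul_assoc, h1, one_mul, mul_assoc, h1, mul_one]
    | app n ω s ih =>
      cases ω
      · rw [eval_mul, eval_mul, ih 0, ih 1]
        simp only [mul_assoc]
        rw [← mul_assoc D' D, h2, one_mul]
      · rw [eval_cst, eval_cst, one_smul, h3]
  have h4 := congrArg (fun M => D * M * D') (hf fun i => D' * y i * D)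
  simp only [evalP, Finsupp.sum, Finset.mul_sum, Finset.sum_mul, mul_smul_comm, smul_mul_assoc,
    ← key, mul_zero, zero_mul] at h4
  exact h4

theorem ids_zero (f : Term Sg →₀ ℂ) (hf : f ∈ Ids (alg 1)) : f ∈ Ids (alg 0) := by
  intro y
  ext i j
  have key : ∀ c : ℂ, evalP (alg c) y f i j =
      (∑ t ∈ f.support, C (f t * t.eval (alg 1) y i j) * X ^ deg t).eval c := by
    intro c
    simp only [evalP, Finsupp.sum, Matrix.sum_apply, eval_finsetSum, eval_mul, eval_C, eval_pow,
      eval_X, Polynomial.eval_mul]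
    refine Finset.sum_congr rfl fun t _ => ?_
    rw [scale]
    simp only [Matrix.smul_apply, smul_eq_mul]
    ring
  have h0 : (∑ t ∈ f.support, C (f t * t.eval (alg 1) y i j) * X ^ deg t) = 0 := by
    refine Polynomial.eq_zero_of_infinite_isRoot _
      ((Set.finite_singleton (0 : ℂ)).infinite_compl.mono fun c hc => ?_)
    change eval c _ = 0
    rw [← key, ids_ne c hc f hf y, Matrix.zero_apply]
  rw [key, h0, eval_zero, Matrix.zero_apply]

theorem one_mem (I : Submodule ℂ W) (hI : IsIdealOf (alg 0) ⊤ I) (h : I ≠ ⊥) : (1 : W) ∈ I := by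
  obtain ⟨u, hu, hu0⟩ := (Submodule.ne_bot_iff I).1 h
  have := IsSimpleRing.one_mem_of_ne_zero_mem (TwoSidedIdeal.mk' (I : Set W) I.zero_mem
    I.add_mem I.neg_mem
    (fun {x y} hy => hI.2 2 .mul ![x, y] (fun _ => trivial) ⟨1, hy⟩)
    (fun {x y} hx => hI.2 2 .mul ![x, y] (fun _ => trivial) ⟨0, hx⟩)) hu0 (by simpa using hu)
  simpa using this

/-- A finite-dimensional prime algebra in the variety of a finite-dimensional algebra that is not
a section of it. -/
theorem result : ∃ (k : Type) (_ : Field k) (_ : IsAlgClosed k) (Ω : ℕ → Type)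
    (A : Type) (_ : AddCommGroup A) (_ : Module k A) (B : Type) (_ : AddCommGroup B)
    (_ : Module k B) (𝒜 : OAlg k Ω A) (ℬ : OAlg k Ω B),
    (∃ n, 2 ≤ n ∧ Nonempty (Ω n)) ∧ FiniteDimensional k A ∧ FiniteDimensional k B ∧
    IsPrime 𝒜 ∧ Ids ℬ ⊆ Ids 𝒜 ∧ ¬ IsSection 𝒜 ℬ := by
  refine ⟨ℂ, inferInstance, inferInstance, Sg, W, inferInstance, inferInstance, W, inferInstance,
    inferInstance, alg 0, alg 1, ⟨2, le_rfl, ⟨.mul⟩⟩, inferInstance, inferInstance, ?_,
    ids_zero, ?_⟩
  · intro I J hI hJ hI0 hJ0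
    refine ⟨2, Term.app 2 .mul fun i => Term.var i, le_rfl, fun i => ?_, fun _ => 1,
      one_mem I hI hI0, one_mem J hJ hJ0, ?_⟩
    · simp only [Term.occ, Fin.sum_univ_two, Fin.val_zero, Fin.val_one]
      split_ifs <;> omega
    · rw [eval_mul]
      simp [Term.eval]
  · rintro ⟨R, hR, φ, hφ, h⟩
    have h1 : Module.finrank ℂ R = Module.finrank ℂ W :=
      le_antisymm R.finrank_le (LinearMap.finrank_le_finrank_of_surjective hφ)
    have h2 := (LinearMap.injective_iff_surjective_of_finrank_eq_finrank h1).2 hφ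
    have h3 := h 0 .cst fun i => i.elim0
    have h4 : (alg 0).op 0 .cst (fun i => φ i.elim0) = 0 := zero_smul ℂ E
    rw [h4, ← map_zero φ] at h3
    have h5 : (1 : ℂ) • E = 0 := congrArg Subtype.val (h2 h3)
    have := congrFun (congrFun h5 0) 1
    simp [E] at this

end Pool.Agent.Results.MP_2fa119_al.Counterexample
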